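import Pool.Agent.X175.Tor.FinChain

/-!
# Every number in `[-2 log 16, 0)` is the limit of the `L²`-torsions along some normal chain

`G = Heis × ℤ` is the product of the discrete Heisenberg group and an infinite cyclic group. The
manifold `M` is the mapping torus of a homeomorphism of the closed orientable surface of genus four
(a closed aspherical `3`-manifold), and `φ` is an epimorphism from `π_1 M` onto `G`, with the
corresponding covering `M̄`. Its cellular chain complex is `(torusCx f hf φ h).toCx`: the
fundamental group is generated by `x_0, …, x_7` and `s`, with the relators `s f(x_j) s⁻¹ x_j⁻¹` and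
`r = [x_0, x_1] [x_2, x_3] [x_4, x_5] [x_6, x_7]`, where the automorphism `f` of the free group fixes
`r` (by the theorem of Dehn, Nielsen and Baer it is induced by a homeomorphism); the boundary
matrices are given by the generators, by the Fox derivatives of the relators, and by
`∂ (s × r) = (s - 1) r - ∑ (∂r/∂x_j) (s × x_j)`.

The manifold and the covering are fixed; the complex of `M̄` is `det-L²-acyclic`, so that it has one
`L²`-torsion `ρ`. For EVERY real number `c` with `-2 log 16 ≤ c < 0` there are

* a normal chain `N` of `G` for which all the complexes of `M̄ / N_i`, `i ≥ 1`, are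
  `det-L²-acyclic` over `G / N_i` (a group with an infinite cyclic subgroup of finite index), with
  `L²`-torsions which converge to `c`;
* a normal chain `N'` of `G` of subgroups of FINITE index (so that `M̄ / N'_i` are closed manifolds,
  finite coverings of `M`) such that the torsions of the complexes, which are given by the
  combinatorial Laplacians and divided by the index, converge to `c`.

Hence the `L²`-torsions converge, but to the wrong number, for all `c ≠ ρ`; the answer to the
question is negative also under the additional assumptions that the torsions converge, or that the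
subgroups have finite index.

Proof: let `Γ_i` be the congruence subgroup of level `k_i` of the Heisenberg group, `k_i` odd and
`k_i ∣ k_{i+1}`, and let `N_i = Γ_i × 1`. The torsion of `M̄ / N_i` is minus the sum of the logarithmic
Mahler measures of the polynomials `(1 - z²)^k ± (± 16)^k (1 - η^g)^{k/g} z^k`, where `k = k_i`,
`g ∣ k`, `η^k = 1`, with multiplicity `φ(g)`, divided by `k³`. For `η^g ≠ 1` the Mahler measure is
about `k log 16`, otherwise it is zero. This gives the limit `-2 (1 - P) log 16` with
`P = lim k_i⁻² ∑_{g ∣ k_i} g φ(g)`, and all `P` in `[0, 1)` occur. For the chain of subgroups of finite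
index take `N'_i = Γ_i × m_i ℤ`, where `m_i` is a multiple of `m_{i-1}` such that the finitely many
zeros `α` on the unit circle of the polynomials of the level satisfy `α^{m_i} = 1` or
`|1 - α^{m_i}| ≥ exp (- ε m_i)`, for which the averages of the logarithms over the `m_i`-th roots of
unity are close to the Mahler measures.

(The starting file `MP_570070_gt.FiberedThreeManifold` has the same manifold and one chain, of
subgroups of infinite index, along which there is no limit.)
-/

namespace Pool.Agent.Results.MP_fa412c_gt.WrongLimits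

open Pool.Agent.TH630.Tor Pool.Agent.Helper993 Pool.Agent.Helper993.HeisDet Filter Topology

theorem result : ∃ (f : FreeGroup (Fin (2 * 4)) ≃* FreeGroup (Fin (2 * 4)))
    (hf : f (surfaceRel 4) = surfaceRel 4)
    (φ : FreeGroup (Fin (2 * 4 + 1)) →* Heis ℤ × Multiplicative ℤ)
    (h : ∀ j, φ (torusRel f j) = 1),
    Function.Surjective φ ∧ (torusCx f hf φ h).toCx.DetL2Acyclic ∧
    ∀ c : ℝ, -(2 * Real.log 16) ≤ c → c < 0 →
      (∃ (N : ℕ → Subgroup (Heis ℤ × Multiplicative ℤ)) (_ : ∀ i, (N i).Normal),
        N 0 = ⊤ ∧ Antitone N ∧ ⨅ i, N i = ⊥ ∧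
        (∀ i, 1 ≤ i → ((torusCx f hf φ h).toCx.quot (N i)).DetL2Acyclic) ∧
        (∀ i n, 0 < FK.fkDet (((torusCx f hf φ h).toCx.quot (N i)).laplacian n)) ∧
        Tendsto (fun i => ((torusCx f hf φ h).toCx.quot (N i)).l2torsion) atTop (𝓝 c)) ∧
      (∃ (N : ℕ → Subgroup (Heis ℤ × Multiplicative ℤ)) (_ : ∀ i, (N i).Normal),
        (∀ i, (N i).FiniteIndex) ∧ N 0 = ⊤ ∧ Antitone N ∧ ⨅ i, N i = ⊥ ∧
        (∀ i n, 0 < FK.fkDet (((torusCx f hf φ h).toCx.quot (N i)).laplacian n)) ∧
        Tendsto (fun i => ((torusCx f hf φ h).toCx.quot (N i)).l2torsion) atTop (𝓝 c)) := by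
  refine ⟨f8', f8'_rel, φ9, φ9_rel, φ9_surj, acyclic_X3, fun c h1 h0 => ?_⟩
  obtain ⟨s, hs⟩ := X175.Tor.exists_torV h1 h0
  refine ⟨⟨X175.Tor.chS s, X175.Tor.chS_normal s, X175.Tor.chS_zero s, X175.Tor.chS_anti s,
    X175.Tor.chS_inf s, fun i hi => (X175.Tor.level_chS s hi).1, X175.Tor.pos_chS s, ?_⟩,
    ⟨X175.Tor.fch s, X175.Tor.fch_normal s, X175.Tor.fch_index s, X175.Tor.fch_zero s,
    X175.Tor.fch_anti s, X175.Tor.fch_inf s, ?_, X175.Tor.fch_tendsto s hs⟩⟩
  · rw [← tendsto_add_atTop_iff_nat 1]
    refine ((tendsto_add_atTop_iff_nat 1).mpr hs).congr fun i => ?_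
    exact (X175.Tor.level_chS s (Nat.le_add_left 1 i)).2.symm
  · intro i n
    rw [FreeCx.laplacian_eq]
    have := X175.Tor.fch_index s i
    exact fkDet_pos_finite _

end Pool.Agent.Results.MP_fa412c_gt.WrongLimits
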